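import Mathlib
import Pool.Agent.H751R3.T3
import Pool.Agent.H751R3.Dart

set_option autoImplicit false

/-!
An amenable connected weighted graph can cover a weighted graph whose spectrum it does not contain.
-/

namespace Pool.Agent.Results.MP_5b767b_an.AmenableInclusionFails

open Filter Topology Pool.Agent.H751R3 Pool.Agent.H751R3.Dart

/-- An undirected graph with vertex set `V` and edge set `E`, multiple edges and loops allowed:
`ends e` is the unordered pair of the endpoints of `e`, equal to `s(v, v)` for a loop at `v`. -/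
structure Gr (V E : Type) where
  ends : E → Sym2 V

variable {V E V₁ E₁ V₂ E₂ : Type}

/-- The set `E_v` of the edges at `v`; a loop at `v` is one element of it. -/
def Gr.star (Γ : Gr V E) (v : V) : Set E := {e | v ∈ Γ.ends e}

open Classical in
/-- The other endpoint `r_v(e)` of an edge `e` at `v`; it is `v` for a loop. -/
noncomputable def Gr.other (Γ : Gr V E) (v : V) (e : E) : V :=
  if h : v ∈ Γ.ends e then Sym2.Mem.other h else v

/-- Degrees and weights are uniformly bounded. -/
def UniformlyBounded (Γ : Gr V E) (α : V → E → ℂ) : Prop :=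
  (∃ D : ℕ, ∀ v, (Γ.star v).encard ≤ D) ∧ ∃ C : ℝ, ∀ v, ∀ e ∈ Γ.star v, ‖α v e‖ ≤ C

/-- The graph is connected. -/
def Gr.Connected (Γ : Gr V E) : Prop :=
  Nonempty V ∧ ∀ u v : V, Relation.ReflTransGen (fun x y => ∃ e, Γ.ends e = s(x, y)) u v

/-- `B_1(A)`: the vertices at distance at most one from `A`. -/
def Gr.ball (Γ : Gr V E) (A : Set V) : Set V :=
  {w | w ∈ A ∨ ∃ v ∈ A, ∃ e, Γ.ends e = s(v, w)}

/-- Amenability: finite sets `F 0 ⊆ F 1 ⊆ ...` exhaust `V` and
`|B_1(F k) \ F k| / |F k| → 0`. -/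
def Gr.Amenable (Γ : Gr V E) : Prop :=
  ∃ F : ℕ → Finset V, Monotone F ∧ (∀ v, ∃ k, v ∈ F k) ∧
    Tendsto (fun k => ((Γ.ball (F k) \ (F k : Set V)).ncard : ℝ) / ((F k).card : ℝ)) atTop (𝓝 0)

/-- The complex Hilbert space `ℓ²(V)`. -/
abbrev H2 (V : Type) : Type := lp (fun _ : V => ℂ) 2

/-- The bounded operators on `ℓ²(V)`. -/
abbrev Op (V : Type) : Type := H2 V →L[ℂ] H2 V

/-- The spectrum `σ(H)` of a bounded operator: the `lam` for which `H - lam` has no bounded
two-sided inverse `T`. -/
def spec (H : Op V) : Set ℂ :=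
  {lam | ¬ ∃ T : Op V, ∀ f : H2 V, T (H f - lam • f) = f ∧ H (T f) - lam • T f = f}

/-- `H` is the Laplace type operator `(H f)(v) = ∑_{e ∈ E_v} α_{v,e} f(r_v(e))` on `ℓ²(V)`. -/
def IsLaplaceType (Γ : Gr V E) (α : V → E → ℂ) (H : Op V) : Prop :=
  ∀ (f : H2 V) (v : V), H f v = ∑ᶠ e ∈ Γ.star v, α v e * f (Γ.other v e)

/-- `(Γ₁, α₁)` covers `(Γ₂, α₂)` through `φ` on vertices and `ψ` on edges. -/
structure IsCovering (Γ₁ : Gr V₁ E₁) (α₁ : V₁ → E₁ → ℂ) (Γ₂ : Gr V₂ E₂) (α₂ : V₂ → E₂ → ℂ)
    (φ : V₁ → V₂) (ψ : E₁ → E₂) : Prop where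
  surj_vert : Function.Surjective φ
  surj_edge : Function.Surjective ψ
  ends : ∀ e, Γ₂.ends (ψ e) = (Γ₁.ends e).map φ
  bij : ∀ v, Set.BijOn ψ (Γ₁.star v) (Γ₂.star (φ v))
  weight : ∀ v, ∀ e ∈ Γ₁.star v, α₁ v e = α₂ (φ v) (ψ e)

/-! ### General lemmas -/

theorem other_eq (Γ : Gr V E) {v u : V} {e : E} (h : Γ.ends e = s(v, u)) : Γ.other v e = u := by
  have hv : v ∈ Γ.ends e := by rw [h]; exact Sym2.mem_mk_left v u
  unfold Gr.other
  rw [dif_pos hv]
  have h1 : s(v, Sym2.Mem.other hv) = s(v, u) := (Sym2.other_spec hv).trans h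
  exact Sym2.congr_right.1 h1

theorem laplace_of_sys {ι : Type} [Fintype ι] (Γ : Gr V E) (D : Sys V ι) (ed : V → ι → E)
    (h1 : ∀ v, Set.BijOn (ed v) {i | v ∈ D.S i} (Γ.star v))
    (h2 : ∀ v i, v ∈ D.S i → Γ.ends (ed v i) = s(v, D.σ i v)) :
    IsLaplaceType Γ (fun _ _ => 1) D.op := by
  classical
  intro f v
  rw [D.op_apply]
  have h3 : ∑ᶠ e ∈ Γ.star v, (1 : ℂ) * f (Γ.other v e) =
      ∑ᶠ i ∈ {i | v ∈ D.S i}, f (D.σ i v) := by
    symm
    refine finsum_mem_eq_of_bijOn (ed v) (h1 v) fun i hi => ?_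
    rw [other_eq Γ (h2 v i hi), one_mul]
  rw [h3, finsum_mem_eq_finite_toFinset_sum _ (Set.toFinite _)]
  rw [← Finset.sum_subset (Finset.subset_univ _) (f := fun i => cf (D.S i) (D.σ i) f v)]
  · refine Finset.sum_congr rfl fun i hi => ?_
    have hi' : v ∈ D.S i := by simpa using hi
    simp [cf, hi']
  · intro i _ hi
    have hi' : v ∉ D.S i := by simpa using hi
    simp [cf, hi']

/-! ### The two graphs -/

/-- The half line with three loops at its origin. -/
def G2 : Gr ℕ (Fin 3 ⊕ ℕ) where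
  ends := Sum.elim (fun _ => s(0, 0)) (fun n => s(n, n + 1))

/-- The coloured edges of the 3-regular tree. -/
def TE : Type := {x : Sym2 W × Fin 3 // ∃ w, x.1 = s(w, act x.2 w)}

/-- The 3-regular tree with a half line attached at every vertex. -/
def G1 : Gr (W × ℕ) (TE ⊕ W × ℕ) where
  ends := Sum.elim (fun x => x.1.1.map fun w => (w, 0)) (fun p => s((p.1, p.2), (p.1, p.2 + 1)))

/-- The tree edge of colour `c` at `w`. -/
def te (w : W) (c : Fin 3) : TE := ⟨(s(w, act c w), c), w, rfl⟩

theorem te_act (w : W) (c : Fin 3) : te (act c w) c = te w c := by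
  apply Subtype.ext
  change (s(act c w, act c (act c w)), c) = (s(w, act c w), c)
  rw [act_act, Sym2.eq_swap]

/-- The darts of `G1`. -/
def D1 : Sys (W × ℕ) (Fin 3 ⊕ Bool) where
  S := fun i => match i with
    | Sum.inl _ => {v | v.2 = 0}
    | Sum.inr true => Set.univ
    | Sum.inr false => {v | v.2 ≠ 0}
  σ := fun i v => match i with
    | Sum.inl c => (act c v.1, v.2)
    | Sum.inr true => (v.1, v.2 + 1)
    | Sum.inr false => (v.1, v.2 - 1)
  rev := fun i => match i with
    | Sum.inl c => Sum.inl c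
    | Sum.inr b => Sum.inr !b
  rev_rev := by rintro (c | b) <;> simp
  mem := by
    rintro (c | b) ⟨w, n⟩ h
    · exact h
    · cases b
      · trivial
      · exact Nat.succ_ne_zero n
  inv := by
    rintro (c | b) ⟨w, n⟩ h
    · simp [act_act]
    · cases b
      · have hn : n ≠ 0 := h
        simp only [Bool.not_false, Prod.mk.injEq, true_and]
        omega
      · simp

/-- The darts of `G2`. -/
def D2 : Sys ℕ (Fin 3 ⊕ Bool) where
  S := fun i => match i with
    | Sum.inl _ => {v | v = 0}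
    | Sum.inr true => Set.univ
    | Sum.inr false => {v | v ≠ 0}
  σ := fun i v => match i with
    | Sum.inl _ => v
    | Sum.inr true => v + 1
    | Sum.inr false => v - 1
  rev := fun i => match i with
    | Sum.inl c => Sum.inl c
    | Sum.inr b => Sum.inr !b
  rev_rev := by rintro (c | b) <;> simp
  mem := by
    rintro (c | b) n h
    · exact h
    · cases b
      · trivial
      · exact Nat.succ_ne_zero n
  inv := by
    rintro (c | b) n h
    · rfl
    · cases b
      · have hn : n ≠ 0 := h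
        simp only [Bool.not_false]
        omega
      · simp

/-- The edge under a dart of `G1`. -/
def ed1 (v : W × ℕ) : Fin 3 ⊕ Bool → TE ⊕ W × ℕ
  | Sum.inl c => Sum.inl (te v.1 c)
  | Sum.inr true => Sum.inr v
  | Sum.inr false => Sum.inr (v.1, v.2 - 1)

/-- The edge under a dart of `G2`. -/
def ed2 (v : ℕ) : Fin 3 ⊕ Bool → Fin 3 ⊕ ℕ
  | Sum.inl c => Sum.inl c
  | Sum.inr true => Sum.inr v
  | Sum.inr false => Sum.inr (v - 1)

theorem ends1 (v : W × ℕ) (i : Fin 3 ⊕ Bool) (h : v ∈ D1.S i) :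
    G1.ends (ed1 v i) = s(v, D1.σ i v) := by
  obtain ⟨w, n⟩ := v
  rcases i with c | b
  · have hn : n = 0 := h
    subst hn
    rfl
  · cases b
    · have hn : n ≠ 0 := h
      change s((w, n - 1), (w, n - 1 + 1)) = s((w, n), (w, n - 1))
      rw [Sym2.eq_swap]
      congr 3
      omega
    · rfl

theorem ends2 (v : ℕ) (i : Fin 3 ⊕ Bool) (h : v ∈ D2.S i) :
    G2.ends (ed2 v i) = s(v, D2.σ i v) := by
  rcases i with c | b
  · have hn : v = 0 := h
    subst hn
    rfl
  · cases b
    · have hn : v ≠ 0 := h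
      change s(v - 1, v - 1 + 1) = s(v, v - 1)
      rw [Sym2.eq_swap]
      congr 2
      omega
    · rfl

theorem bij1 (v : W × ℕ) : Set.BijOn (ed1 v) {i | v ∈ D1.S i} (G1.star v) := by
  refine ⟨?_, ?_, ?_⟩
  · intro i hi
    change v ∈ G1.ends (ed1 v i)
    rw [ends1 v i hi]
    exact Sym2.mem_mk_left _ _
  · rintro (c | b) hi (d | b') hj h
    · have h1 : te v.1 c = te v.1 d := Sum.inl_injective h
      have h2 : c = d := congrArg (fun x : TE => x.1.2) h1
      rw [h2]
    · cases b' <;> cases h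
    · cases b <;> cases h
    · have hn : ∀ n : ℕ, n ≠ 0 → n - 1 ≠ n := by intro n hn; omega
      cases b <;> cases b'
      · rfl
      · exfalso
        have h1 : (v.1, v.2 - 1) = v := Sum.inr_injective h
        exact hn v.2 hi (congrArg Prod.snd h1)
      · exfalso
        have h1 : v = (v.1, v.2 - 1) := Sum.inr_injective h
        exact hn v.2 hj (congrArg Prod.snd h1).symm
      · rfl
  · rintro (x | ⟨w, m⟩) he
    · obtain ⟨⟨z, c⟩, w, hw⟩ := x
      simp only at hw
      subst hw
      have he' : v ∈ s((w, 0), (act c w, 0)) := he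
      rw [Sym2.mem_iff] at he'
      rcases he' with rfl | rfl
      · exact ⟨Sum.inl c, rfl, rfl⟩
      · refine ⟨Sum.inl c, rfl, ?_⟩
        change Sum.inl (te (act c w) c) = _
        rw [te_act]
        rfl
    · have he' : v ∈ s((w, m), (w, m + 1)) := he
      rw [Sym2.mem_iff] at he'
      rcases he' with rfl | rfl
      · exact ⟨Sum.inr true, trivial, rfl⟩
      · exact ⟨Sum.inr false, Nat.succ_ne_zero m, rfl⟩

theorem bij2 (v : ℕ) : Set.BijOn (ed2 v) {i | v ∈ D2.S i} (G2.star v) := by
  refine ⟨?_, ?_, ?_⟩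
  · intro i hi
    change v ∈ G2.ends (ed2 v i)
    rw [ends2 v i hi]
    exact Sym2.mem_mk_left _ _
  · rintro (c | b) hi (d | b') hj h
    · have h2 : c = d := Sum.inl_injective h
      rw [h2]
    · cases b' <;> cases h
    · cases b <;> cases h
    · have hn : ∀ n : ℕ, n ≠ 0 → n - 1 ≠ n := by intro n hn; omega
      cases b <;> cases b'
      · rfl
      · exfalso
        exact hn v hi (Sum.inr_injective h)
      · exfalso
        exact hn v hj (Sum.inr_injective h).symm
      · rfl
  · rintro (c | m) he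
    · have he' : v ∈ s(0, 0) := he
      rw [Sym2.mem_iff] at he'
      have hv : v = 0 := by rcases he' with h | h <;> exact h
      subst hv
      exact ⟨Sum.inl c, rfl, rfl⟩
    · have he' : v ∈ s(m, m + 1) := he
      rw [Sym2.mem_iff] at he'
      rcases he' with rfl | rfl
      · exact ⟨Sum.inr true, trivial, rfl⟩
      · exact ⟨Sum.inr false, Nat.succ_ne_zero m, rfl⟩

/-- The covering map on edges. -/
def psi : TE ⊕ W × ℕ → Fin 3 ⊕ ℕ := Sum.map (fun x => x.1.2) Prod.snd

theorem psi_ed1 (v : W × ℕ) (i : Fin 3 ⊕ Bool) : psi (ed1 v i) = ed2 v.2 i := by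
  rcases i with c | b
  · rfl
  · cases b <;> rfl

theorem dom_eq (v : W × ℕ) : {i | v ∈ D1.S i} = {i | v.2 ∈ D2.S i} := by
  ext i
  rcases i with c | b
  · rfl
  · cases b <;> exact Iff.rfl

theorem covering : IsCovering G1 (fun _ _ => 1) G2 (fun _ _ => 1) Prod.snd psi where
  surj_vert := fun n => ⟨(e0, n), rfl⟩
  surj_edge := by
    rintro (c | n)
    · exact ⟨Sum.inl (te e0 c), rfl⟩
    · exact ⟨Sum.inr (e0, n), rfl⟩
  ends := by
    rintro (x | ⟨w, m⟩)
    · obtain ⟨⟨z, c⟩, w, hw⟩ := x
      simp only at hw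
      subst hw
      rfl
    · rfl
  bij := by
    intro v
    have h1 := bij1 v
    have h2 := bij2 v.2
    rw [← dom_eq v] at h2
    refine ⟨?_, ?_, ?_⟩
    · intro e he
      obtain ⟨i, hi, rfl⟩ := h1.surjOn he
      rw [psi_ed1]
      exact h2.mapsTo hi
    · intro e he e' he' h
      obtain ⟨i, hi, rfl⟩ := h1.surjOn he
      obtain ⟨j, hj, rfl⟩ := h1.surjOn he'
      rw [psi_ed1, psi_ed1] at h
      rw [h2.injOn hi hj h]
    · intro e he
      obtain ⟨i, hi, rfl⟩ := h2.surjOn he
      exact ⟨ed1 v i, h1.mapsTo hi, psi_ed1 v i⟩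
  weight := fun _ _ _ => rfl

theorem bounded_of {V E : Type} (Γ : Gr V E) (D : Sys V (Fin 3 ⊕ Bool))
    (ed : V → Fin 3 ⊕ Bool → E)
    (h1 : ∀ v, Set.BijOn (ed v) {i | v ∈ D.S i} (Γ.star v)) :
    UniformlyBounded Γ (fun _ _ => 1) := by
  refine ⟨⟨5, fun v => ?_⟩, 1, fun v e _ => by simp⟩
  rw [← (h1 v).image_eq]
  refine (Set.encard_image_le _ _).trans ?_
  refine (Set.encard_le_encard (Set.subset_univ _)).trans ?_
  rw [Set.encard_univ]
  simp

theorem connected1 : G1.Connected := by
  refine ⟨⟨(e0, 0)⟩, ?_⟩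
  have key : ∀ v : W × ℕ,
      Relation.ReflTransGen (fun x y => ∃ e, G1.ends e = s(x, y)) (e0, 0) v := by
    rintro ⟨w, n⟩
    induction n with
    | zero =>
      induction w using W_induction with
      | h0 => exact Relation.ReflTransGen.refl
      | h1 c w ih => exact ih.tail ⟨Sum.inl (te w c), rfl⟩
    | succ n ih => exact ih.tail ⟨Sum.inr (w, n), rfl⟩
  have hs : ∀ x y : W × ℕ, (∃ e, G1.ends e = s(x, y)) → ∃ e, G1.ends e = s(y, x) := by
    rintro x y ⟨e, he⟩
    exact ⟨e, by rw [he, Sym2.eq_swap]⟩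
  intro u v
  refine Relation.ReflTransGen.trans ?_ (key v)
  have := key u
  induction this with
  | refl => exact Relation.ReflTransGen.refl
  | tail _ h ih => exact Relation.ReflTransGen.head (hs _ _ h) ih

/-- Balls of the tree. -/
def tb : ℕ → Finset W
  | 0 => {e0}
  | k + 1 => tb k ∪ (Finset.univ ×ˢ tb k).image fun p : Fin 3 × W => act p.1 p.2

theorem tb_pos (k : ℕ) : 0 < (tb k).card := by
  have : e0 ∈ tb k := by
    induction k with
    | zero => simp [tb]
    | succ k ih => exact Finset.mem_union_left _ ih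
  exact Finset.card_pos.2 ⟨_, this⟩

theorem amenable1 : G1.Amenable := by
  refine ⟨fun k => tb k ×ˢ Finset.range (k + 1), ?_, ?_, ?_⟩
  · refine monotone_nat_of_le_succ fun k => ?_
    refine Finset.product_subset_product Finset.subset_union_left ?_
    exact Finset.range_mono (by omega)
  · have h1 : ∀ w : W, ∃ k, w ∈ tb k := by
      intro w
      induction w using W_induction with
      | h0 => exact ⟨0, by simp [tb]⟩
      | h1 c w ih =>
        obtain ⟨k, hk⟩ := ih
        refine ⟨k + 1, Finset.mem_union_right _ ?_⟩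
        rw [Finset.mem_image]
        exact ⟨(c, w), by simp [hk], rfl⟩
    have hmono : Monotone tb := monotone_nat_of_le_succ fun k => Finset.subset_union_left
    rintro ⟨w, n⟩
    obtain ⟨k, hk⟩ := h1 w
    refine ⟨max k n, ?_⟩
    rw [Finset.mem_product]
    refine ⟨hmono (le_max_left k n) hk, ?_⟩
    rw [Finset.mem_range]
    have := le_max_right k n
    omega
  · have hb : ∀ k : ℕ, (G1.ball (tb k ×ˢ Finset.range (k + 1) : Finset (W × ℕ)) \
        ((tb k ×ˢ Finset.range (k + 1) : Finset (W × ℕ)) : Set (W × ℕ))).ncard ≤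
          4 * (tb k).card := by
      intro k
      set B : Finset (W × ℕ) :=
        ((Finset.univ ×ˢ tb k).image fun p : Fin 3 × W => act p.1 p.2) ×ˢ {0} ∪
          tb k ×ˢ {k + 1} with hB
      have hsub : (G1.ball (tb k ×ˢ Finset.range (k + 1) : Finset (W × ℕ)) \
        ((tb k ×ˢ Finset.range (k + 1) : Finset (W × ℕ)) : Set (W × ℕ))) ⊆ (B : Set (W × ℕ)) := by
        rintro ⟨w, n⟩ ⟨h1, h2⟩
        rcases h1 with h1 | ⟨⟨w', n'⟩, h3, e, he⟩
        · exact absurd h1 h2
        · rw [Finset.mem_coe, Finset.mem_product, Finset.mem_range] at h3 h2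
          obtain ⟨h3, h4⟩ := h3
          simp only at h3 h4
          rcases e with x | ⟨w'', m⟩
          · obtain ⟨⟨z, c⟩, w1, hw⟩ := x
            simp only at hw
            subst hw
            have he' : s((w1, 0), (act c w1, 0)) = s((w', n'), (w, n)) := he
            rw [Sym2.eq_iff] at he'
            rw [Finset.mem_coe, hB, Finset.mem_union]
            left
            rw [Finset.mem_product]
            rcases he' with ⟨h5, h6⟩ | ⟨h5, h6⟩
            · obtain ⟨rfl, rfl⟩ := Prod.mk.inj h5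
              obtain ⟨rfl, rfl⟩ := Prod.mk.inj h6
              refine ⟨?_, by simp⟩
              rw [Finset.mem_image]
              exact ⟨(c, w1), by simp [h3], rfl⟩
            · obtain ⟨rfl, rfl⟩ := Prod.mk.inj h5
              obtain ⟨rfl, rfl⟩ := Prod.mk.inj h6
              refine ⟨?_, by simp⟩
              rw [Finset.mem_image]
              exact ⟨(c, act c w1), by simp [h3], by simp [act_act]⟩
          · have he' : s((w'', m), (w'', m + 1)) = s((w', n'), (w, n)) := he
            rw [Sym2.eq_iff] at he'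
            simp only [not_and, not_lt] at h2
            rcases he' with ⟨h5, h6⟩ | ⟨h5, h6⟩
            · obtain ⟨rfl, rfl⟩ := Prod.mk.inj h5
              obtain ⟨rfl, rfl⟩ := Prod.mk.inj h6
              have := h2 h3
              rw [Finset.mem_coe, hB, Finset.mem_union]
              right
              rw [Finset.mem_product]
              refine ⟨h3, ?_⟩
              rw [Finset.mem_singleton]
              change m + 1 = k + 1
              omega
            · obtain ⟨rfl, rfl⟩ := Prod.mk.inj h5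
              obtain ⟨rfl, rfl⟩ := Prod.mk.inj h6
              have := h2 h3
              omega
      refine (Set.ncard_le_ncard hsub (Finset.finite_toSet _)).trans ?_
      rw [Set.ncard_coe_finset]
      refine (Finset.card_union_le _ _).trans ?_
      rw [Finset.card_product, Finset.card_product, Finset.card_singleton, Finset.card_singleton]
      have h1 : ((Finset.univ ×ˢ tb k).image fun p : Fin 3 × W => act p.1 p.2).card ≤
          3 * (tb k).card := by
        refine Finset.card_image_le.trans ?_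
        rw [Finset.card_product]
        simp
      omega
    refine squeeze_zero (fun k => by positivity) (g := fun k : ℕ => 4 / ((k : ℝ) + 1)) ?_ ?_
    · intro k
      have h1 : (((tb k ×ˢ Finset.range (k + 1) : Finset (W × ℕ))).card : ℝ) =
          (tb k).card * ((k : ℝ) + 1) := by
        rw [Finset.card_product, Finset.card_range]
        push_cast
        ring
      rw [h1]
      have h2 : (0 : ℝ) < (tb k).card := by exact_mod_cast tb_pos k
      have h3 : (0 : ℝ) < (k : ℝ) + 1 := by positivity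
      rw [div_le_div_iff₀ (by positivity) h3]
      have h4 : (((G1.ball (tb k ×ˢ Finset.range (k + 1) : Finset (W × ℕ)) \
        ((tb k ×ˢ Finset.range (k + 1) : Finset (W × ℕ)) : Set (W × ℕ))).ncard : ℕ) : ℝ) ≤
          4 * (tb k).card := by exact_mod_cast hb k
      nlinarith
    · have : Tendsto (fun k : ℕ => (4 : ℝ) / ((k : ℝ) + 1)) atTop (𝓝 0) := by
        have h := tendsto_one_div_add_atTop_nhds_zero_nat (𝕜 := ℝ)
        have h2 := h.const_mul 4
        simpa [div_eq_mul_inv] using h2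
      exact this

/-! ### Spectra -/

theorem mem_spec2 : (10 / 3 : ℂ) ∈ spectrum ℂ D2.op := by
  have hsum : Summable fun n : ℕ => ‖((1 / 3 : ℂ)) ^ n‖ ^ 2 := by
    have h1 : ∀ n : ℕ, ‖((1 / 3 : ℂ)) ^ n‖ ^ 2 = (1 / 9 : ℝ) ^ n := by
      intro n
      rw [norm_pow, ← pow_mul, mul_comm n 2, pow_mul]
      norm_num
    simp only [h1]
    exact summable_geometric_of_lt_one (by norm_num) (by norm_num)
  set g : Dart.L2 ℕ := ⟨fun n => (1 / 3 : ℂ) ^ n, mem_of_summable _ hsum⟩ with hg
  have hgn : ∀ n, g n = (1 / 3 : ℂ) ^ n := fun n => rfl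
  have hne : g ≠ 0 := by
    intro h
    have h1 := congrArg (fun f : Dart.L2 ℕ => f 0) h
    simp only at h1
    rw [hgn] at h1
    simp at h1
  have heig : D2.op g = (10 / 3 : ℂ) • g := by
    ext n
    rw [D2.op_apply]
    change _ = (10 / 3 : ℂ) * g n
    rw [Fintype.sum_sum_type]
    simp only [Fin.sum_univ_three, Fintype.sum_bool]
    cases n with
    | zero =>
      simp only [cf, D2]
      simp only [Set.mem_ofPred_eq, if_true, Set.mem_univ, hgn, ne_eq, not_true_eq_false,
        if_false]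
      norm_num
    | succ n =>
      simp only [cf, D2]
      simp only [Set.mem_ofPred_eq, Nat.succ_ne_zero, if_false, Set.mem_univ, if_true, ne_eq,
        not_false_eq_true, Nat.add_sub_cancel, hgn]
      ring
  rw [spectrum.mem_iff]
  intro hu
  have h1 : (algebraMap ℂ (Dart.L2 ℕ →L[ℂ] Dart.L2 ℕ) (10 / 3) - D2.op) g = 0 := by
    rw [sub_apply, heig]
    simp [Algebra.algebraMap_eq_smul_one]
  rw [ContinuousLinearMap.isUnit_iff_bijective] at hu
  exact hne (hu.1 (by rw [h1, map_zero]))

/-- The weights of the Schur test. -/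
noncomputable def sc : Fin 3 ⊕ Bool → W × ℕ → ℝ
  | Sum.inl c => fun v => if v.1.1.head? = some c then 3 / 2 else 2 / 3
  | Sum.inr true => fun _ => 6 / 17
  | Sum.inr false => fun _ => 17 / 6

theorem notMem_spec1 : (10 / 3 : ℂ) ∉ spectrum ℂ D1.op := by
  have hsch : ∀ f : Dart.L2 (W × ℕ), ‖inner ℂ f (D1.op f)‖ ≤ 325 / 102 * ‖f‖ ^ 2 := by
    refine D1.schur sc ?_ ?_ ?_
    · rintro (c | b) v _
      · unfold sc; simp only; split_ifs <;> norm_num
      · cases b <;> simp [sc]
    · rintro (c | b) ⟨w, n⟩ _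
      · change (if (act c w).1.head? = some c then (3 / 2 : ℝ) else 2 / 3) =
          (if w.1.head? = some c then (3 / 2 : ℝ) else 2 / 3)⁻¹
        rcases len_act c w with ⟨h0, h1, h2⟩ | ⟨h0, h1, h2⟩
        · rw [if_pos h0, if_neg]
          · norm_num
          rw [h2]
          obtain ⟨l, hl⟩ := w
          cases l with
          | nil => simp at h0
          | cons d l =>
            simp only [List.head?_cons, Option.some.injEq] at h0
            subst h0
            simp only [List.tail_cons]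
            cases l with
            | nil => simp
            | cons e l =>
              have : d ≠ e := (List.isChain_cons_cons.1 hl).1
              simpa using fun h => this h.symm
        · rw [if_neg h0, if_pos]
          · norm_num
          rw [h2]; simp
      · cases b
        · change (6 / 17 : ℝ) = (17 / 6)⁻¹
          norm_num
        · change (17 / 6 : ℝ) = (6 / 17)⁻¹
          norm_num
    · rintro ⟨⟨l, hl⟩, n⟩
      rw [Fintype.sum_sum_type]
      simp only [Fin.sum_univ_three, Fintype.sum_bool]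
      cases n with
      | zero =>
        simp only [D1, Set.indicator, Set.mem_ofPred_eq, if_true, Set.mem_univ, ne_eq,
          not_true_eq_false, if_false, sc]
        cases l with
        | nil =>
          simp only [List.head?_nil, reduceCtorEq, if_false]
          norm_num
        | cons d l =>
          simp only [List.head?_cons, Option.some.injEq]
          have h3 : ∀ d : Fin 3, ((if d = 0 then (3 / 2 : ℝ) else 2 / 3) +
              (if d = 1 then (3 / 2 : ℝ) else 2 / 3) + (if d = 2 then (3 / 2 : ℝ) else 2 / 3)) +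
              (6 / 17 + 0) ≤ 325 / 102 := by
            intro d
            have h4 : d = 0 ∨ d = 1 ∨ d = 2 := by revert d; decide
            rcases h4 with rfl | rfl | rfl <;> simp <;> norm_num
          exact h3 d
      | succ n =>
        simp only [D1, Set.indicator, Set.mem_ofPred_eq, Nat.succ_ne_zero, if_false,
          Set.mem_univ, if_true, ne_eq, not_false_eq_true, sc]
        norm_num
  rw [spectrum.mem_iff, not_not]
  refine isUnit_of_bdd_below _ ?_ (c := 5 / 34) (by norm_num) ?_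
  · intro x y
    simp only [Algebra.algebraMap_eq_smul_one, sub_apply, smul_apply,
      one_apply_eq_self, inner_sub_left, inner_sub_right, D1.symm,
      inner_smul_left, inner_smul_right]
    congr 2
    rw [map_div₀, Complex.conj_ofNat, Complex.conj_ofNat]
  · intro f
    set T := algebraMap ℂ (Dart.L2 (W × ℕ) →L[ℂ] Dart.L2 (W × ℕ)) (10 / 3) - D1.op with hT
    have h1 : inner ℂ f (T f) = (10 / 3 : ℂ) * (‖f‖ : ℂ) ^ 2 - inner ℂ f (D1.op f) := by
      rw [hT]
      simp only [Algebra.algebraMap_eq_smul_one, sub_apply, smul_apply,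
        one_apply_eq_self, inner_sub_right, inner_smul_right]
      rw [inner_self_eq_norm_sq_to_K]
      rfl
    have h2 : (10 / 3 : ℝ) * ‖f‖ ^ 2 ≤ ‖inner ℂ f (T f)‖ + ‖inner ℂ f (D1.op f)‖ := by
      have h3 : (10 / 3 : ℂ) * (‖f‖ : ℂ) ^ 2 = inner ℂ f (T f) + inner ℂ f (D1.op f) := by
        rw [h1]; ring
      have h4 : ‖(10 / 3 : ℂ) * (‖f‖ : ℂ) ^ 2‖ = (10 / 3 : ℝ) * ‖f‖ ^ 2 := by
        rw [norm_mul, norm_pow, Complex.norm_real, norm_norm]
        norm_num
      rw [← h4, h3]
      exact norm_add_le _ _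
    have h3 := hsch f
    have h4 : ‖inner ℂ f (T f)‖ ≤ ‖f‖ * ‖T f‖ := norm_inner_le_norm _ _
    have h5 : 5 / 34 * ‖f‖ ^ 2 ≤ ‖f‖ * ‖T f‖ := by linarith
    rcases (norm_nonneg f).eq_or_lt with h6 | h6
    · rw [← h6]; simp
    · have h7 : ‖f‖ * (5 / 34 * ‖f‖) ≤ ‖f‖ * ‖T f‖ := by linarith [h5, sq ‖f‖]
      exact le_of_mul_le_mul_left h7 h6

theorem mem_spec_iff (H : Op V) (lam : ℂ) : lam ∈ spec H ↔ lam ∈ spectrum ℂ H := by
  unfold spec
  rw [spectrum.mem_iff, Set.mem_ofPred_eq, not_iff_not]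
  constructor
  · rintro ⟨T, hT⟩
    rw [ContinuousLinearMap.isUnit_iff_bijective]
    have h1 : ∀ f, (algebraMap ℂ (Op V) lam - H) f = - (H f - lam • f) := by
      intro f
      simp [Algebra.algebraMap_eq_smul_one]
    constructor
    · intro f g hfg
      rw [h1, h1, neg_inj] at hfg
      rw [← (hT f).1, hfg, (hT g).1]
    · intro f
      refine ⟨- T f, ?_⟩
      rw [h1, map_neg, smul_neg, ← neg_sub_neg, neg_neg, neg_neg]
      have := (hT f).2
      rw [← this]
      simp [this]
  · rintro ⟨u, hu⟩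
    refine ⟨- (↑u⁻¹ : Op V), fun f => ?_⟩
    have h1 : ∀ f, (u : Op V) f = lam • f - H f := by
      intro f
      rw [hu]
      simp [Algebra.algebraMap_eq_smul_one]
    have h2 : ∀ f, (↑u⁻¹ : Op V) ((u : Op V) f) = f := by
      intro f
      have : (↑u⁻¹ * ↑u : Op V) f = f := by rw [Units.inv_mul]; rfl
      exact this
    have h3 : ∀ f, (u : Op V) ((↑u⁻¹ : Op V) f) = f := by
      intro f
      have : (↑u * ↑u⁻¹ : Op V) f = f := by rw [Units.mul_inv]; rfl
      exact this
    constructor
    · have h4 : H f - lam • f = - (u : Op V) f := by rw [h1]; abel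
      rw [h4]
      change - (↑u⁻¹ : Op V) (- (u : Op V) f) = f
      rw [map_neg, h2, neg_neg]
    · change H (- (↑u⁻¹ : Op V) f) - lam • (- (↑u⁻¹ : Op V) f) = f
      have h4 := h3 f
      rw [h1] at h4
      rw [map_neg, smul_neg]
      rw [← h4]
      simp only [h4]
      rw [← h4]
      simp only [h4]
      nth_rewrite 3 [← h4]
      abel

/-- `(Γ₁, α₁)` is an amenable, connected, uniformly bounded weighted graph which covers the
uniformly bounded weighted graph `(Γ₂, α₂)`. -/
def AmenableCovering (Γ₁ : Gr V₁ E₁) (α₁ : V₁ → E₁ → ℂ) (Γ₂ : Gr V₂ E₂) (α₂ : V₂ → E₂ → ℂ) :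
    Prop :=
  Γ₁.Amenable ∧ Γ₁.Connected ∧ UniformlyBounded Γ₁ α₁ ∧ UniformlyBounded Γ₂ α₂ ∧
    ∃ (φ : V₁ → V₂) (ψ : E₁ → E₂), IsCovering Γ₁ α₁ Γ₂ α₂ φ ψ

/-- **The spectral inclusion fails.** There are an amenable, connected, uniformly bounded weighted
graph `(Γ₁, α₁)` covering a uniformly bounded weighted graph `(Γ₂, α₂)` (even with all weights
equal to `1`, so that both Laplace type operators are adjacency operators), with Laplace type
operators `H₁` and `H₂`, and some `lam` in the spectrum of `H₂` that is not in the spectrum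
of `H₁`. -/
theorem result :
    ∃ (V₁ E₁ V₂ E₂ : Type) (Γ₁ : Gr V₁ E₁) (α₁ : V₁ → E₁ → ℂ) (Γ₂ : Gr V₂ E₂) (α₂ : V₂ → E₂ → ℂ)
      (H₁ : Op V₁) (H₂ : Op V₂), AmenableCovering Γ₁ α₁ Γ₂ α₂ ∧
      IsLaplaceType Γ₁ α₁ H₁ ∧ IsLaplaceType Γ₂ α₂ H₂ ∧
      (∀ v e, α₁ v e = 1) ∧ (∀ v e, α₂ v e = 1) ∧ ∃ lam, lam ∈ spec H₂ ∧ lam ∉ spec H₁ :=
  ⟨W × ℕ, TE ⊕ W × ℕ, ℕ, Fin 3 ⊕ ℕ, G1, fun _ _ => 1, G2, fun _ _ => 1,
    D1.op, D2.op, ⟨amenable1, connected1, bounded_of G1 D1 ed1 bij1,
    bounded_of G2 D2 ed2 bij2, Prod.snd, psi, covering⟩, laplace_of_sys G1 D1 ed1 bij1 ends1,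
    laplace_of_sys G2 D2 ed2 bij2 ends2, fun _ _ => rfl, fun _ _ => rfl, 10 / 3,
    (mem_spec_iff _ _).2 mem_spec2, fun h => notMem_spec1 ((mem_spec_iff _ _).1 h)⟩

end Pool.Agent.Results.MP_5b767b_an.AmenableInclusionFails
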